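import Pool.Agent.H546.TNfin
import Pool.Agent.H546.TNsmall

set_option autoImplicit false

/-!
# `∑ C(2k,k)² C(3k,k) / (-12³)^k` modulo `p²` (Q2)

The proof: the sum is the square of a Legendre polynomial modulo `p²` (Clausen); the elliptic curve
`y² = x³ + (6A-27)x + (A²-18A+54)`, `A = 2 - √17/2`, with complex multiplication by the order of discriminant `-51`, has
isogenies of degrees `5` and `3` to its conjugate; over the Witt vectors of an algebraic closure of `ZMod p` a
combination of these isogenies of degree `p` lifts the Frobenius, and comparing expansions modulo `p²` gives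
the value of the Legendre polynomial modulo `p²`. In the last case the Hasse invariant vanishes.
-/

open Finset

namespace Pool.Agent.Results.MP_18afd0_nt.TwelveCubed

/-- the sum `T(p) = ∑_{k<p} C(2k,k)² C(3k,k) / (-12³)^k` -/
def T (p : ℕ) : ℚ := ∑ k ∈ range p, (((2 * k).choose k : ℚ) ^ 2 * ((3 * k).choose k : ℚ)) / (-12 ^ 3) ^ k

/-- congruence modulo `p²` of rational numbers: `(a - b) / p²` has denominator prime to `p` -/
def Cong (p : ℕ) (a b : ℚ) : Prop := p.Coprime ((a - b) / (p : ℚ) ^ 2).den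

local instance fact17a : Fact (Nat.Prime 17) := ⟨by norm_num⟩

theorem leg3_p {p : ℕ} [hp : Fact p.Prime] (h3 : p ≠ 3) :
    (p % 3 = 1 ∧ jacobiSym p 3 = 1) ∨ (p % 3 = 2 ∧ jacobiSym p 3 = -1) := by
  have h0 : p % 3 ≠ 0 := by
    intro h0
    have := (Nat.prime_dvd_prime_iff_eq Nat.prime_three hp.out).mp (Nat.dvd_of_mod_eq_zero h0)
    omega
  have h : jacobiSym p 3 = legendreSym 3 p := (jacobiSym.legendreSym.to_jacobiSym 3 p).symm
  rw [h, legendreSym.mod]
  have hc : ((p : ℤ) % ((3 : ℕ) : ℤ)) = ((p % 3 : ℕ) : ℤ) := by norm_cast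
  rw [hc, Pool.Agent.H546.leg3_aux _ (Nat.mod_lt _ (by norm_num)) h0]
  have : p % 3 = 1 ∨ p % 3 = 2 := by omega
  rcases this with h | h
  · left; rw [if_pos h]; exact ⟨h, rfl⟩
  · right; rw [if_neg (by omega)]; exact ⟨h, rfl⟩

theorem leg17_17 : legendreSym 17 ((17 : ℕ) : ℤ) = 0 := by decide

theorem result (p : ℕ) (hp : p.Prime) (h3 : 3 < p) :
    (jacobiSym p 3 = 1 → jacobiSym p 17 = 1 → ∀ x y : ℤ, 4 * (p : ℤ) = x ^ 2 + 51 * y ^ 2 →
      Cong p (T p) (x ^ 2 - 2 * p)) ∧
    (jacobiSym p 3 = -1 → jacobiSym p 17 = -1 → ∀ x y : ℤ, 4 * (p : ℤ) = 3 * x ^ 2 + 17 * y ^ 2 →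
      Cong p (T p) (2 * p - 3 * x ^ 2)) ∧
    (jacobiSym p 3 = -jacobiSym p 17 → Cong p (T p) 0) := by
  haveI : Fact p.Prime := ⟨hp⟩
  have hM : ¬ (p : ℤ) ∣ -1728 := by
    rw [dvd_neg]
    have := Pool.Agent.H546.ndvd_of_primes p (n := 1728) (l := [2, 2, 2, 2, 2, 2, 3, 3, 3]) (by simp; norm_num)
      (by norm_num) (by simp; omega)
    exact_mod_cast this
  obtain ⟨wi, hwi⟩ := Pool.Agent.H546.inv_exists hM
  have tr : ∀ E : ℤ, ∑ k ∈ range p, (k.centralBinom : ZMod (p ^ 2)) *
      ((Pool.Agent.Q267.MW.u3 k : ℕ) : ZMod (p ^ 2)) * wi ^ k = ((E : ℤ) : ZMod (p ^ 2)) →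
      Cong p (T p) (E : ℚ) := by
    intro E hE
    have h := Pool.Agent.H546.tr3 hM hwi E hE
    have e : (((-1728 : ℤ)) : ℚ) = -12 ^ 3 := by norm_num
    rw [e] at h
    exact h
  have h17 : jacobiSym p 17 = legendreSym 17 p := (jacobiSym.legendreSym.to_jacobiSym 17 p).symm
  rw [h17]
  by_cases hp5 : p = 5
  · subst hp5
    have j3 : jacobiSym ((5 : ℕ) : ℤ) 3 = -1 := by
      rcases leg3_p (p := 5) (by norm_num) with h | h
      · exact absurd h.1 (by norm_num)
      · exact h.2
    have j17 : legendreSym 17 ((5 : ℕ) : ℤ) = -1 := by decide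
    rw [j3, j17]
    refine ⟨fun h => absurd h (by norm_num), fun _ _ x y hxy => ?_, fun h => absurd h (by norm_num)⟩
    have hs := Pool.Agent.H546.tn5 wi hwi
    have hy : y ^ 2 = 1 := by
      have h1 : y ^ 2 ≤ 1 := by
        have : 17 * y ^ 2 ≤ 20 := by push_cast at hxy; nlinarith [sq_nonneg x]
        omega
      have h2 : y ^ 2 ≠ 0 := by
        intro h0; rw [h0] at hxy; push_cast at hxy; omega
      have h3 := sq_nonneg y
      omega
    have hx : x ^ 2 = 1 := by rw [hy] at hxy; push_cast at hxy; omega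
    have := tr 7 hs
    have hxq : (x : ℚ) ^ 2 = 1 := by exact_mod_cast hx
    rw [hxq]
    push_cast at this ⊢
    norm_num at this ⊢
    exact this
  by_cases hp11 : p = 11
  · subst hp11
    have j3 : jacobiSym ((11 : ℕ) : ℤ) 3 = -1 := by
      rcases leg3_p (p := 11) (by norm_num) with h | h
      · exact absurd h.1 (by norm_num)
      · exact h.2
    have j17 : legendreSym 17 ((11 : ℕ) : ℤ) = -1 := by decide
    rw [j3, j17]
    refine ⟨fun h => absurd h (by norm_num), fun _ _ x y hxy => ?_, fun h => absurd h (by norm_num)⟩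
    have hs := Pool.Agent.H546.tn11 wi hwi
    have hy : y ^ 2 = 1 := by
      have h1 : y ^ 2 ≤ 2 := by
        have : 17 * y ^ 2 ≤ 44 := by push_cast at hxy; nlinarith [sq_nonneg x]
        omega
      have h2 : y ^ 2 ≠ 0 := by
        intro h0; rw [h0] at hxy; push_cast at hxy; omega
      have h2' : y ^ 2 ≠ 2 := by
        intro h0; rw [h0] at hxy; push_cast at hxy; omega
      have h3 := sq_nonneg y
      omega
    have hx : x ^ 2 = 9 := by rw [hy] at hxy; push_cast at hxy; omega
    have := tr (-5) (by rw [hs]; decide)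
    have hxq : (x : ℚ) ^ 2 = 9 := by exact_mod_cast hx
    rw [hxq]
    push_cast at this ⊢
    norm_num at this ⊢
    exact this
  by_cases hp13 : p = 13
  · subst hp13
    have j3 : jacobiSym ((13 : ℕ) : ℤ) 3 = 1 := by
      rcases leg3_p (p := 13) (by norm_num) with h | h
      · exact h.2
      · exact absurd h.1 (by norm_num)
    have j17 : legendreSym 17 ((13 : ℕ) : ℤ) = 1 := by decide
    rw [j3, j17]
    refine ⟨fun _ _ x y hxy => ?_, fun h => absurd h (by norm_num), fun h => absurd h (by norm_num)⟩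
    have hs := Pool.Agent.H546.tn13 wi hwi
    have hy : y ^ 2 = 1 := by
      have h1 : y ^ 2 ≤ 1 := by
        have : 51 * y ^ 2 ≤ 52 := by push_cast at hxy; nlinarith [sq_nonneg x]
        omega
      have h2 : y ^ 2 ≠ 0 := by
        intro h0; rw [h0] at hxy; push_cast at hxy
        have hx : x ^ 2 = 52 := by linarith
        have h7 : x < 8 := by nlinarith
        have h8 : -8 < x := by nlinarith
        interval_cases x <;> omega
      have h3 := sq_nonneg y
      omega
    have hx : x ^ 2 = 1 := by rw [hy] at hxy; push_cast at hxy; omega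
    have := tr (-25) (by rw [hs]; decide)
    have hxq : (x : ℚ) ^ 2 = 1 := by exact_mod_cast hx
    rw [hxq]
    push_cast at this ⊢
    norm_num at this ⊢
    exact this
  by_cases hp17 : p = 17
  · subst hp17
    rw [leg17_17]
    refine ⟨fun _ h => absurd h (by norm_num), fun _ h => absurd h (by norm_num), fun h => ?_⟩
    rcases leg3_p (p := 17) (by norm_num) with h' | h' <;> rw [h'.2] at h <;> norm_num at h
  have h5 : 5 < p := by
    have h4 : p ≠ 4 := by rintro rfl; exact absurd hp (by norm_num)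
    omega
  obtain ⟨m1, m2, m3⟩ := Pool.Agent.H546.tn_main p h5 hp17 hwi
  have h16 : p ≠ 7 → 16 ≤ p := by
    intro h7
    by_contra hlt
    have hp6 : p ≠ 6 := by rintro rfl; exact absurd hp (by norm_num)
    have hp8 : p ≠ 8 := by rintro rfl; exact absurd hp (by norm_num)
    have hp9 : p ≠ 9 := by rintro rfl; exact absurd hp (by norm_num)
    have hp10 : p ≠ 10 := by rintro rfl; exact absurd hp (by norm_num)
    have hp12 : p ≠ 12 := by rintro rfl; exact absurd hp (by norm_num)
    have hp14 : p ≠ 14 := by rintro rfl; exact absurd hp (by norm_num)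
    have hp15 : p ≠ 15 := by rintro rfl; exact absurd hp (by norm_num)
    omega
  refine ⟨fun h3' h17' x y hxy => ?_, fun h3' h17' x y hxy => ?_, fun h => ?_⟩
  · have h7 : p ≠ 7 := by
      rintro rfl
      have : legendreSym 17 ((7 : ℕ) : ℤ) = -1 := by decide
      rw [this] at h17'
      norm_num at h17'
    have hm : p % 3 = 1 := by
      rcases leg3_p (p := p) (by omega) with h | h
      · exact h.1
      · rw [h.2] at h3'; norm_num at h3'
    have := tr _ (m1 x y (h16 h7) hm h17' hxy)
    push_cast at this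
    exact this
  · have h7 : p ≠ 7 := by
      rintro rfl
      rcases leg3_p (p := 7) (by norm_num) with h | h
      · rw [h.2] at h3'; norm_num at h3'
      · exact absurd h.1 (by norm_num)
    have hm : p % 3 = 2 := by
      rcases leg3_p (p := p) (by omega) with h | h
      · rw [h.2] at h3'; norm_num at h3'
      · exact h.1
    have := tr _ (m2 x y (h16 h7) hm h17' hxy)
    push_cast at this
    exact this
  · have hc : (p % 3 = 1 ∧ legendreSym 17 p = -1) ∨ (p % 3 = 2 ∧ legendreSym 17 p = 1) := by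
      rcases leg3_p (p := p) (by omega) with h' | h'
      · left; rw [h'.2] at h; exact ⟨h'.1, by linarith⟩
      · right; rw [h'.2] at h; exact ⟨h'.1, by linarith⟩
    have := tr 0 (by rw [m3 hc]; push_cast; rfl)
    push_cast at this
    exact this

end Pool.Agent.Results.MP_18afd0_nt.TwelveCubed
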